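import Pool.Agent.FHQ.StmtsP

/-!
# FHQ, rows EXP and NCA (helper7): basic facts about argument indices
-/

open scoped BigOperators

noncomputable section

namespace Pool.Agent.FHQ.H7

open Polynomial

section arg

variable {p : ℕ} {D : ℕ} (a : Fin D → ZMod p) (s : Fin D → ℤ) (g : ℤ)

theorem mu_eq {k : Fin D} (hk : Arg a s g k) : Mu a s g = s k + (k : ℕ) * g := by
  have h : ∃ k, Arg a s g k := ⟨k, hk⟩
  unfold Mu
  rw [dif_pos h]
  have h1 := h.choose_spec
  exact le_antisymm (h1.2 k hk.1) (hk.2 _ h1.1)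

theorem arg_exists (h : ∃ k, a k ≠ 0) : ∃ k, Arg a s g k := by
  classical
  obtain ⟨k0, hk0⟩ := h
  obtain ⟨k, hk, hmin⟩ := Finset.exists_min_image (Finset.univ.filter fun k => a k ≠ 0)
    (fun k => s k + (k : ℕ) * g) ⟨k0, by simpa using hk0⟩
  refine ⟨k, by simpa using hk, fun l hl => hmin l (by simpa using hl)⟩

open Classical in
/-- the polynomial of the leading terms -/
def Rp : (ZMod p)[X] := ∑ k : Fin D, if Arg a s g k then monomial (k : ℕ) (a k) else 0

open Classical in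
theorem rp_coeff (n : ℕ) : (Rp a s g).coeff n =
    if h : n < D then (if Arg a s g ⟨n, h⟩ then a ⟨n, h⟩ else 0) else 0 := by
  unfold Rp
  rw [finsetSum_coeff]
  by_cases hn : n < D
  · rw [dif_pos hn]
    rw [Finset.sum_eq_single (⟨n, hn⟩ : Fin D)]
    · by_cases hA : Arg a s g ⟨n, hn⟩
      · rw [if_pos hA, if_pos hA, coeff_monomial, if_pos rfl]
      · rw [if_neg hA, if_neg hA, coeff_zero]
    · intro k _ hk
      by_cases hA : Arg a s g k
      · rw [if_pos hA, coeff_monomial, if_neg]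
        intro h
        exact hk (Fin.ext h)
      · rw [if_neg hA, coeff_zero]
    · intro h
      exact absurd (Finset.mem_univ _) h
  · rw [dif_neg hn]
    refine Finset.sum_eq_zero fun k _ => ?_
    by_cases hA : Arg a s g k
    · rw [if_pos hA, coeff_monomial, if_neg]
      intro h
      exact hn (h ▸ k.2)
    · rw [if_neg hA, coeff_zero]

theorem rp_eval (z : ZMod p) : (Rp a s g).eval z = Sp a s g z := by
  classical
  unfold Rp Sp
  rw [eval_finsetSum]
  refine Finset.sum_congr rfl fun k _ => ?_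
  by_cases hA : Arg a s g k
  · rw [if_pos hA, if_pos hA, eval_monomial]
  · rw [if_neg hA, if_neg hA, eval_zero]

theorem rp_deriv (z : ZMod p) : (derivative (Rp a s g)).eval z = Sd a s g z := by
  classical
  unfold Rp Sd
  rw [derivative_sum, eval_finsetSum]
  refine Finset.sum_congr rfl fun k _ => ?_
  by_cases hA : Arg a s g k
  · rw [if_pos hA, if_pos hA, derivative_monomial, eval_monomial]
    ring
  · rw [if_neg hA, if_neg hA, derivative_zero, eval_zero]

theorem rp_natDegree (hD : 0 < D) : (Rp a s g).natDegree < D := by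
  refine lt_of_le_of_lt ((natDegree_le_iff_coeff_eq_zero (n := D - 1)).2 fun n hn => ?_)
    (Nat.sub_lt hD one_pos)
  rw [rp_coeff, dif_neg]
  omega

theorem rp_ne (h : ∃ k, a k ≠ 0) : Rp a s g ≠ 0 := by
  classical
  obtain ⟨k, hk⟩ := arg_exists a s g h
  intro h0
  have h1 := rp_coeff a s g k
  rw [h0, coeff_zero, dif_pos k.2, if_pos hk] at h1
  exact hk.1 h1.symm

end arg

section red

variable {p : ℕ} [Fact p.Prime] {K : Type} [Field K] (A : AcF0 p K)

theorem exists_ne {D : ℕ} {W : K[X]} (hW : W ≠ 0) (hD : W.natDegree < D) :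
    ∃ k, A.cac D W k ≠ 0 := by
  refine ⟨⟨W.natDegree, hD⟩, ?_⟩
  intro h
  have h1 : W.coeff W.natDegree = 0 := (A.ac_zero _).1 h
  exact hW (leadingCoeff_eq_zero.1 h1)

/-- the scaled polynomial -/
def Sc (W : K[X]) (w T : K) : K[X] := C w⁻¹ * W.comp (C T * X)

theorem sc_coeff (W : K[X]) (w T : K) (k : ℕ) : (Sc W w T).coeff k = w⁻¹ * (W.coeff k * T ^ k) := by
  unfold Sc
  rw [coeff_C_mul, comp_C_mul_X_coeff]

theorem sc_eval (W : K[X]) (w T u : K) : (Sc W w T).eval u = w⁻¹ * W.eval (T * u) := by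
  unfold Sc
  rw [eval_mul, eval_C, eval_comp, eval_mul, eval_C, eval_X]

theorem v_pow (hR : ResStmt) {T : K} (hT : T ≠ 0) (k : ℕ) : A.v (T ^ k) = k * A.v T := by
  induction k with
  | zero => rw [pow_zero, (hR p K A).2.1]; simp
  | succ k ih => rw [pow_succ, A.v_mul _ _ (pow_ne_zero _ hT) hT, ih]; push_cast; ring

theorem ac_pow (hR : ResStmt) (T : K) (k : ℕ) : A.ac (T ^ k) = A.ac T ^ k := by
  induction k with
  | zero => rw [pow_zero, pow_zero, (hR p K A).1]
  | succ k ih => rw [pow_succ, pow_succ, A.ac_mul, ih]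

/-- the valuation and the angular component of a coefficient of the scaled polynomial -/
theorem sc_v (hR : ResStmt) {W : K[X]} {w T : K} (hw : w ≠ 0) (hT : T ≠ 0) (hwa : A.ac w = 1)
    (hTa : A.ac T = 1) {k : ℕ} (hk : W.coeff k ≠ 0) :
    (Sc W w T).coeff k ≠ 0 ∧ A.v ((Sc W w T).coeff k) = A.v (W.coeff k) + k * A.v T - A.v w ∧
    A.ac ((Sc W w T).coeff k) = A.ac (W.coeff k) := by
  rw [sc_coeff]
  refine ⟨mul_ne_zero (inv_ne_zero hw) (mul_ne_zero hk (pow_ne_zero _ hT)), ?_, ?_⟩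
  · rw [A.v_mul _ _ (inv_ne_zero hw) (mul_ne_zero hk (pow_ne_zero _ hT)),
      A.v_mul _ _ hk (pow_ne_zero _ hT), v_pow A hR hT, ((hR p K A).2.2.2.1 w hw).2]
    ring
  · rw [A.ac_mul, A.ac_mul, ac_pow A hR, ((hR p K A).2.2.2.1 w hw).1, hwa, hTa]
    simp

theorem sc_int (hR : ResStmt) {W : K[X]} {D : ℕ} (hD : W.natDegree < D) {w T : K} (hw : w ≠ 0)
    (hT : T ≠ 0) (hwa : A.ac w = 1) (hTa : A.ac T = 1)
    (hwv : A.v w = Mu (A.cac D W) (A.cv D W) (A.v T)) (k : ℕ) : A.Int ((Sc W w T).coeff k) := by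
  by_cases hk : W.coeff k = 0
  · left
    rw [sc_coeff, hk]
    ring
  · right
    have hkD : k < D := lt_of_le_of_lt (le_natDegree_of_ne_zero hk) hD
    have hW : W ≠ 0 := fun h => hk (by rw [h, coeff_zero])
    obtain ⟨m, hm⟩ := arg_exists (A.cac D W) (A.cv D W) (A.v T) (exists_ne A hW hD)
    have h1 := hm.2 ⟨k, hkD⟩ (fun h => hk ((A.ac_zero _).1 h))
    rw [(sc_v A hR hw hT hwa hTa hk).2.1, hwv, mu_eq _ _ _ hm]
    have h2 : A.cv D W ⟨k, hkD⟩ = A.v (W.coeff k) := rfl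
    rw [h2] at h1
    simp only at h1
    linarith

open Classical in
/-- the reduction of the scaled polynomial -/
theorem sc_red (hR : ResStmt) {W : K[X]} {D : ℕ} (hD : W.natDegree < D) {w T : K} (hw : w ≠ 0)
    (hT : T ≠ 0) (hwa : A.ac w = 1) (hTa : A.ac T = 1)
    (hwv : A.v w = Mu (A.cac D W) (A.cv D W) (A.v T)) :
    A.red (Sc W w T) = Rp (A.cac D W) (A.cv D W) (A.v T) := by
  ext k
  rw [(hR p K A).2.2.2.2.2.2.1, rp_coeff]
  by_cases hk : W.coeff k = 0
  · have h1 : (Sc W w T).coeff k = 0 := by rw [sc_coeff, hk]; ring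
    rw [h1]
    have h2 : A.res 0 = 0 := by unfold AcF0.res; simp
    rw [h2]
    by_cases hkD : k < D
    · rw [dif_pos hkD, if_neg]
      intro h
      exact h.1 ((A.ac_zero _).2 hk)
    · rw [dif_neg hkD]
  · have hkD : k < D := lt_of_le_of_lt (le_natDegree_of_ne_zero hk) hD
    have hW : W ≠ 0 := fun h => hk (by rw [h, coeff_zero])
    obtain ⟨m, hm⟩ := arg_exists (A.cac D W) (A.cv D W) (A.v T) (exists_ne A hW hD)
    obtain ⟨e1, e2, e3⟩ := sc_v A hR hw hT hwa hTa hk
    rw [dif_pos hkD]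
    unfold AcF0.res
    have hak : A.cac D W ⟨k, hkD⟩ ≠ 0 := fun h => hk ((A.ac_zero _).1 h)
    have hvk : A.cv D W ⟨k, hkD⟩ = A.v (W.coeff k) := rfl
    by_cases hA : Arg (A.cac D W) (A.cv D W) (A.v T) ⟨k, hkD⟩
    · rw [if_pos hA, if_pos, e3]
      · rfl
      · refine ⟨e1, ?_⟩
        rw [e2, hwv, mu_eq _ _ _ hA, hvk]
        simp
    · rw [if_neg hA, if_neg]
      rintro ⟨-, h0⟩
      apply hA
      refine ⟨hak, fun l hl => ?_⟩
      rw [e2, hwv, mu_eq _ _ _ hm] at h0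
      have h3 := hm.2 l hl
      rw [hvk]
      simp only
      linarith

end red

end Pool.Agent.FHQ.H7
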