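import Pool.Agent.Helper7_FHQ.Bas

/-!
# FHQ, row EXP (helper7)
-/

open scoped BigOperators

noncomputable section

namespace Pool.Agent.FHQ.H7

open Polynomial

theorem exp (hR : ResStmt) : ExpStmt := by
  intro p _ K _ A W D hW hD t ht
  obtain ⟨w, hw, hwa, hwv⟩ := A.surj 1 (Mu (A.cac D W) (A.cv D W) (A.v t)) one_ne_zero
  obtain ⟨T, hT, hTa, hTv⟩ := A.surj 1 (A.v t) one_ne_zero
  have hwv' : A.v w = Mu (A.cac D W) (A.cv D W) (A.v T) := by rw [hTv]; exact hwv
  obtain ⟨r1, r2, r3, r4, r5, r6, r7, r8⟩ := hR p K A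
  have hint := sc_int A hR hD hw hT hwa hTa hwv'
  have hred := sc_red A hR hD hw hT hwa hTa hwv'
  set u : K := T⁻¹ * t with hu
  have hu0 : u ≠ 0 := mul_ne_zero (inv_ne_zero hT) ht
  have huv : A.v u = 0 := by
    rw [hu, A.v_mul _ _ (inv_ne_zero hT) ht, (r4 T hT).2, hTv]
    ring
  have hua : A.ac u = A.ac t := by
    rw [hu, A.ac_mul, (r4 T hT).1, hTa]
    simp
  have hTu : T * u = t := by
    rw [hu]
    field_simp
  have huI : A.Int u := Or.inr (by rw [huv])
  have hur : A.res u = A.ac t := by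
    unfold AcF0.res
    rw [if_pos ⟨hu0, huv⟩, hua]
  obtain ⟨h1, h2⟩ := r8 (Sc W w T) u hint huI
  rw [hred, hur, rp_eval, hTv] at h2
  rw [sc_eval, hTu] at h1 h2
  have hwe : W.eval t = w * (w⁻¹ * W.eval t) := by field_simp
  constructor
  · intro hS
    have h3 : A.res (w⁻¹ * W.eval t) ≠ 0 := by rw [h2]; exact hS
    have h4 : w⁻¹ * W.eval t ≠ 0 ∧ A.v (w⁻¹ * W.eval t) = 0 := by
      by_contra h
      apply h3
      unfold AcF0.res
      rw [if_neg h]
    have h5 : A.ac (w⁻¹ * W.eval t) = Sp (A.cac D W) (A.cv D W) (A.v t) (A.ac t) := by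
      rw [← h2]
      unfold AcF0.res
      rw [if_pos h4]
    refine ⟨?_, ?_, ?_⟩
    · intro h
      apply h4.1
      rw [h, mul_zero]
    · rw [hwe, A.ac_mul, hwa, one_mul, h5]
    · rw [hwe, A.v_mul _ _ hw h4.1, h4.2, add_zero, hwv]
  · intro hS
    rw [hS] at h2
    rcases (r6 _ h1).1 h2 with h | h
    · left
      rcases mul_eq_zero.1 h with h' | h'
      · exact absurd h' (inv_ne_zero hw)
      · exact h'
    · by_cases h0 : W.eval t = 0
      · exact Or.inl h0
      · right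
        rw [hwe, A.v_mul _ _ hw (mul_ne_zero (inv_ne_zero hw) h0), hwv]
        linarith

end Pool.Agent.FHQ.H7
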